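import Mathlib

set_option autoImplicit false

namespace Pool.Agent.Helper98K9.Pasc

section RealPart

open Real

/-- real inequality for the prime count (variant of the one in Mathlib's Bertrand file). -/
theorem real_ineq {x : ℝ} (x_large : (648 : ℝ) ≤ x) :
    x * (2 * x) ^ (√(2 * x) + 3) * 4 ^ (2 * x / 3) ≤ 4 ^ x := by
  let f : ℝ → ℝ := fun x => log x + √(2 * x) * log (2 * x) + 3 * log (2 * x) - log 4 / 3 * x
  have hf' : ∀ x, 0 < x → 0 < x * (2 * x) ^ (√(2 * x) + 3) / 4 ^ (x / 3) := fun x h =>
    div_pos (mul_pos h (rpow_pos_of_pos (mul_pos two_pos h) _)) (rpow_pos_of_pos four_pos _)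
  have hf : ∀ x, 0 < x → f x = log (x * (2 * x) ^ (√(2 * x) + 3) / 4 ^ (x / 3)) := by
    intro x h5
    have h6 := mul_pos (zero_lt_two' ℝ) h5
    have h7 := rpow_pos_of_pos h6 (√(2 * x) + 3)
    rw [log_div (mul_pos h5 h7).ne' (rpow_pos_of_pos four_pos _).ne', log_mul h5.ne' h7.ne',
      log_rpow h6, log_rpow zero_lt_four]
    simp only [f]; ring
  have h5 : 0 < x := lt_of_lt_of_le (by norm_num1) x_large
  rw [← div_le_one (rpow_pos_of_pos four_pos x), ← div_div_eq_mul_div, ← rpow_sub four_pos, ←
    mul_div 2 x, mul_div_left_comm, ← mul_one_sub, (by norm_num1 : (1 : ℝ) - 2 / 3 = 1 / 3),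
    mul_one_div, ← log_nonpos_iff (hf' x h5).le, ← hf x h5]
  have h : ConcaveOn ℝ (Set.Ioi 0.5) f := by
    have hA : ConcaveOn ℝ (Set.Ioi (0.5:ℝ)) (fun x : ℝ => √(2 * x) * log (2 * x)) := by
      convert!
        ((strictConcaveOn_sqrt_mul_log_Ioi.concaveOn.comp_linearMap ((2 : ℝ) • LinearMap.id)))
        using 1
      ext x
      simp only [Set.mem_Ioi, Set.mem_preimage, LinearMap.smul_apply,
        LinearMap.id_coe, id_eq, smul_eq_mul]
      rw [← mul_lt_mul_iff_right₀ (two_pos)]
      norm_num1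
      rfl
    have hB : ConcaveOn ℝ (Set.Ioi (0.5:ℝ)) (fun x : ℝ => log x) :=
      strictConcaveOn_log_Ioi.concaveOn.subset
          (Set.Ioi_subset_Ioi (by norm_num)) (convex_Ioi 0.5)
    have hC : ConcaveOn ℝ (Set.Ioi (0.5:ℝ)) (fun x : ℝ => 3 * log (2 * x)) := by
      have h1 : ConcaveOn ℝ (Set.Ioi (0.5:ℝ)) (fun x : ℝ => 3 * log x + 3 * log 2) := by
        refine ConcaveOn.add ?_ (concaveOn_const _ (convex_Ioi _))
        exact hB.smul (by norm_num : (0:ℝ) ≤ 3)
      refine h1.congr ?_
      intro y hy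
      have hy0 : (0:ℝ) < y := lt_trans (by norm_num) hy
      simp only
      rw [log_mul (by norm_num) hy0.ne']; ring
    apply ConcaveOn.sub
    · exact (hB.add hA).add hC
    apply ConvexOn.smul
    · refine div_nonneg (log_nonneg (by norm_num1)) (by norm_num1)
    · exact convexOn_id (convex_Ioi (0.5 : ℝ))
  suffices ∃ x1 x2, 0.5 < x1 ∧ x1 < x2 ∧ x2 ≤ x ∧ 0 ≤ f x1 ∧ f x2 ≤ 0 by
    obtain ⟨x1, x2, h1, h2, h0, h3, h4⟩ := this
    exact (h.right_le_of_le_left'' h1 ((h1.trans h2).trans_le h0) h2 h0 (h4.trans h3)).trans h4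
  refine ⟨18, 648, by norm_num1, by norm_num1, x_large, ?_, ?_⟩
  · have : √(2 * 18 : ℝ) = 6 := (sqrt_eq_iff_mul_self_eq_of_pos (by norm_num1)).mpr (by norm_num1)
    rw [hf _ (by norm_num1), log_nonneg_iff (by positivity), this, one_le_div (by norm_num1)]
    norm_num1
  · have : √(2 * 648 : ℝ) = 36 :=
      (sqrt_eq_iff_mul_self_eq_of_pos (by norm_num1)).mpr (by norm_num1)
    rw [hf _ (by norm_num1), log_nonpos_iff (hf' _ (by norm_num1)).le, this,
        div_le_one (by positivity)]
    have e1 : ((36:ℝ) + 3) = ((39:ℕ):ℝ) := by norm_num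
    have e2 : ((648:ℝ) / 3) = ((216:ℕ):ℝ) := by norm_num
    rw [e1, e2, rpow_natCast, rpow_natCast]
    norm_num

end RealPart

open Nat

theorem nat_ineq {n : ℕ} (n_large : 648 ≤ n) :
    n * (2 * n) ^ (sqrt (2 * n) + 3) * 4 ^ (2 * n / 3) ≤ 4 ^ n := by
  rw [← @cast_le ℝ]
  simp only [cast_mul, cast_pow, ← Real.rpow_natCast, cast_ofNat]
  refine _root_.trans ?_ (real_ineq (by exact_mod_cast n_large))
  gcongr
  · have n2_pos : 1 ≤ 2 * n := by omega
    exact mod_cast n2_pos
  · push_cast
    gcongr
    exact_mod_cast Real.nat_sqrt_le_real_sqrt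
  · norm_num1
  · exact cast_div_le.trans (by norm_cast)

theorem cb_le (n : ℕ) (n_large : 2 < n)
    (few : ((Finset.Ioc n (2 * n)).filter Nat.Prime).card ≤ 3) :
    centralBinom n ≤ (2 * n) ^ sqrt (2 * n) * 4 ^ (2 * n / 3) * (2 * n) ^ 3 := by
  have n_pos : 0 < n := (Nat.zero_le _).trans_lt n_large
  have n2_pos : 1 ≤ 2 * n := mul_pos (zero_lt_two' ℕ) n_pos
  let f : ℕ → ℕ := fun x => x ^ n.centralBinom.factorization x
  have hsplit : centralBinom n = (∏ p ∈ Finset.range (2 * n / 3 + 1), f p) *
      ∏ p ∈ (Finset.Ioc n (2 * n)).filter Nat.Prime, f p := by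
    rw [← Finset.prod_union]
    · refine (n.prod_pow_factorization_centralBinom).symm.trans ?_
      symm
      apply Finset.prod_subset
      · intro x hx
        rw [Finset.mem_union, Finset.mem_range, Finset.mem_filter, Finset.mem_Ioc] at hx
        rw [Finset.mem_range]
        omega
      intro x hx h2x
      rw [Finset.mem_union, Finset.mem_range, Finset.mem_filter, Finset.mem_Ioc] at h2x
      push Not at h2x
      rw [Finset.mem_range] at hx
      by_cases hp : x.Prime
      · have hxn : x ≤ n := by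
          by_contra hc
          exact h2x.2 ⟨by omega, by omega⟩ hp
        have h3 : 2 * n < 3 * x := by omega
        simp only [f]
        rw [factorization_centralBinom_of_two_mul_self_lt_three_mul n_large hxn h3, Nat.pow_zero]
      · simp only [f]
        rw [factorization_eq_zero_of_not_prime n.centralBinom hp, Nat.pow_zero]
    · rw [Finset.disjoint_left]
      intro x hx hx2
      rw [Finset.mem_filter, Finset.mem_Ioc] at hx2
      rw [Finset.mem_range] at hx
      omega
  let S := {p ∈ Finset.range (2 * n / 3 + 1) | Nat.Prime p}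
  have hS : ∏ x ∈ S, f x = ∏ x ∈ Finset.range (2 * n / 3 + 1), f x := by
    refine Finset.prod_filter_of_ne fun p _ h => ?_
    contrapose h; dsimp only [f]
    rw [factorization_eq_zero_of_not_prime n.centralBinom h, _root_.pow_zero]
  rw [hsplit, ← hS, ← Finset.prod_filter_mul_prod_filter_not S (· ≤ sqrt (2 * n))]
  apply mul_le_mul'
  apply mul_le_mul'
  · refine (Finset.prod_le_prod' fun p _ => (?_ : f p ≤ 2 * n)).trans ?_
    · exact pow_factorization_choose_le (mul_pos two_pos n_pos)
    have : (Finset.Icc 1 (sqrt (2 * n))).card = sqrt (2 * n) := by rw [card_Icc, Nat.add_sub_cancel]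
    rw [Finset.prod_const]
    refine pow_right_mono₀ n2_pos ((Finset.card_le_card fun x hx => ?_).trans this.le)
    obtain ⟨h1, h2⟩ := Finset.mem_filter.1 hx
    exact Finset.mem_Icc.mpr ⟨(Finset.mem_filter.1 h1).2.one_lt.le, h2⟩
  · refine le_trans ?_ (primorial_le_four_pow (2 * n / 3))
    refine (Finset.prod_le_prod' fun p hp => (?_ : f p ≤ p)).trans ?_
    · obtain ⟨h1, h2⟩ := Finset.mem_filter.1 hp
      refine (pow_right_mono₀ (Finset.mem_filter.1 h1).2.one_lt.le ?_).trans (pow_one p).le
      exact Nat.factorization_choose_le_one (sqrt_lt'.mp <| not_le.1 h2)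
    refine Finset.prod_le_prod_of_subset_of_one_le' (Finset.filter_subset _ _) ?_
    exact fun p hp _ => (Finset.mem_filter.1 hp).2.one_lt.le
  · refine (Finset.prod_le_prod' fun p _ => (?_ : f p ≤ 2 * n)).trans ?_
    · exact pow_factorization_choose_le (mul_pos two_pos n_pos)
    rw [Finset.prod_const]
    exact pow_right_mono₀ n2_pos few

theorem four_large (n : ℕ) (n_large : 648 ≤ n) :
    4 ≤ ((Finset.Ioc n (2 * n)).filter Nat.Prime).card := by
  by_contra hc
  have few : ((Finset.Ioc n (2 * n)).filter Nat.Prime).card ≤ 3 := by omega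
  have h1 := Nat.four_pow_lt_mul_centralBinom n (le_trans (by norm_num1) n_large)
  have h2 := cb_le n (by omega) few
  have h3 := nat_ineq n_large
  have h4 : n * centralBinom n ≤ n * (2 * n) ^ (sqrt (2 * n) + 3) * 4 ^ (2 * n / 3) := by
    calc n * centralBinom n ≤ n * ((2 * n) ^ sqrt (2 * n) * 4 ^ (2 * n / 3) * (2 * n) ^ 3) :=
          Nat.mul_le_mul_left _ h2
      _ = _ := by ring
  omega

theorem four_step {n a b p1 p2 p3 p4 : ℕ} (h1 : p1.Prime) (h2 : p2.Prime) (h3 : p3.Prime)
    (h4 : p4.Prime) (h12 : p1 < p2) (h23 : p2 < p3) (h34 : p3 < p4) (hb : b ≤ p1) (ha : p4 ≤ 2 * a)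
    (hn : a ≤ n) (hnb : n < b) : 4 ≤ ((Finset.Ioc n (2 * n)).filter Nat.Prime).card := by
  have hsub : ({p1, p2, p3, p4} : Finset ℕ) ⊆ (Finset.Ioc n (2 * n)).filter Nat.Prime := by
    intro x hx
    simp only [Finset.mem_insert, Finset.mem_singleton] at hx
    rw [Finset.mem_filter, Finset.mem_Ioc]
    rcases hx with rfl | rfl | rfl | rfl
    · exact ⟨by omega, h1⟩
    · exact ⟨by omega, h2⟩
    · exact ⟨by omega, h3⟩
    · exact ⟨by omega, h4⟩
  have hcard : ({p1, p2, p3, p4} : Finset ℕ).card = 4 := by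
    rw [Finset.card_insert_of_notMem, Finset.card_insert_of_notMem, Finset.card_insert_of_notMem,
      Finset.card_singleton]
    · simp only [Finset.mem_singleton]; omega
    · simp only [Finset.mem_singleton, Finset.mem_insert]; omega
    · simp only [Finset.mem_singleton, Finset.mem_insert]; omega
  rw [← hcard]
  exact Finset.card_le_card hsub

theorem four_primes (n : ℕ) (hn : 15 ≤ n) :
    4 ≤ ((Finset.Ioc n (2 * n)).filter Nat.Prime).card := by
  rcases le_or_gt 648 n with h | h
  · exact four_large n h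
  rcases lt_or_ge n 17 with h1 | h1
  · exact four_step (a := 15) (b := 17) (p1 := 17) (p2 := 19) (p3 := 23) (p4 := 29) (by norm_num)
      (by norm_num) (by norm_num) (by norm_num) (by norm_num) (by norm_num) (by norm_num)
      (by norm_num) (by norm_num) hn h1
  rcases lt_or_ge n 19 with h2 | h2
  · exact four_step (a := 17) (b := 19) (p1 := 19) (p2 := 23) (p3 := 29) (p4 := 31) (by norm_num)
      (by norm_num) (by norm_num) (by norm_num) (by norm_num) (by norm_num) (by norm_num)
      (by norm_num) (by norm_num) h1 h2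
  rcases lt_or_ge n 23 with h3 | h3
  · exact four_step (a := 19) (b := 23) (p1 := 23) (p2 := 29) (p3 := 31) (p4 := 37) (by norm_num)
      (by norm_num) (by norm_num) (by norm_num) (by norm_num) (by norm_num) (by norm_num)
      (by norm_num) (by norm_num) h2 h3
  rcases lt_or_ge n 31 with h4 | h4
  · exact four_step (a := 23) (b := 31) (p1 := 31) (p2 := 37) (p3 := 41) (p4 := 43) (by norm_num)
      (by norm_num) (by norm_num) (by norm_num) (by norm_num) (by norm_num) (by norm_num)
      (by norm_num) (by norm_num) h3 h4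
  rcases lt_or_ge n 47 with h5 | h5
  · exact four_step (a := 31) (b := 47) (p1 := 47) (p2 := 53) (p3 := 59) (p4 := 61) (by norm_num)
      (by norm_num) (by norm_num) (by norm_num) (by norm_num) (by norm_num) (by norm_num)
      (by norm_num) (by norm_num) h4 h5
  rcases lt_or_ge n 73 with h6 | h6
  · exact four_step (a := 47) (b := 73) (p1 := 73) (p2 := 79) (p3 := 83) (p4 := 89) (by norm_num)
      (by norm_num) (by norm_num) (by norm_num) (by norm_num) (by norm_num) (by norm_num)
      (by norm_num) (by norm_num) h5 h6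
  rcases lt_or_ge n 127 with h7 | h7
  · exact four_step (a := 73) (b := 127) (p1 := 127) (p2 := 131) (p3 := 137) (p4 := 139) (by norm_num)
      (by norm_num) (by norm_num) (by norm_num) (by norm_num) (by norm_num) (by norm_num)
      (by norm_num) (by norm_num) h6 h7
  rcases lt_or_ge n 233 with h8 | h8
  · exact four_step (a := 127) (b := 233) (p1 := 233) (p2 := 239) (p3 := 241) (p4 := 251) (by norm_num)
      (by norm_num) (by norm_num) (by norm_num) (by norm_num) (by norm_num) (by norm_num)
      (by norm_num) (by norm_num) h7 h8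
  rcases lt_or_ge n 449 with h9 | h9
  · exact four_step (a := 233) (b := 449) (p1 := 449) (p2 := 457) (p3 := 461) (p4 := 463) (by norm_num)
      (by norm_num) (by norm_num) (by norm_num) (by norm_num) (by norm_num) (by norm_num)
      (by norm_num) (by norm_num) h8 h9
  · exact four_step (a := 449) (b := 877) (p1 := 877) (p2 := 881) (p3 := 883) (p4 := 887) (by norm_num)
      (by norm_num) (by norm_num) (by norm_num) (by norm_num) (by norm_num) (by norm_num)
      (by norm_num) (by norm_num) h9 (by omega)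

end Pool.Agent.Helper98K9.Pasc
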