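import Mathlib

set_option autoImplicit false

open Polynomial

namespace Pool.Agent.Helper98K9.Pasc

/-- The reversed Pascalian polynomial of index `2m`. -/
noncomputable def R (m : ℕ) : ℤ[X] :=
  ∑ k ∈ Finset.range (2 * m + 1), C (((2 * m).choose ((2 * m - k) / 2) : ℕ) : ℤ) * X ^ k

theorem R_coeff (m k : ℕ) : (R m).coeff k =
    if k < 2 * m + 1 then (((2 * m).choose ((2 * m - k) / 2) : ℕ) : ℤ) else 0 := by
  unfold R
  rw [finsetSum_coeff]
  simp only [coeff_C_mul_X_pow]
  rw [Finset.sum_ite_eq]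
  simp only [Finset.mem_range]

theorem R_natDegree_le (m : ℕ) : (R m).natDegree ≤ 2 * m := by
  rw [natDegree_le_iff_coeff_eq_zero]
  intro k hk
  rw [R_coeff, if_neg (by omega)]

theorem R_coeff_top (m : ℕ) : (R m).coeff (2 * m) = 1 := by
  rw [R_coeff, if_pos (by omega)]
  simp

theorem R_monic (m : ℕ) : (R m).Monic :=
  monic_of_natDegree_le_of_coeff_eq_one (2 * m) (R_natDegree_le m) (R_coeff_top m)

theorem R_natDegree (m : ℕ) : (R m).natDegree = 2 * m :=
  natDegree_eq_of_le_of_coeff_ne_zero (R_natDegree_le m) (by rw [R_coeff_top]; norm_num)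

theorem pairs {A : Type*} [AddCommMonoid A] (f : ℕ → A) (m : ℕ) :
    ∑ k ∈ Finset.range (2 * m + 1), f k =
      f 0 + ∑ t ∈ Finset.range m, (f (2 * t + 1) + f (2 * t + 2)) := by
  induction m with
  | zero => simp
  | succ m ih =>
    have e : 2 * (m + 1) + 1 = (2 * m + 1) + 1 + 1 := by ring
    rw [e, Finset.sum_range_succ, Finset.sum_range_succ, ih, Finset.sum_range_succ]
    rw [show 2 * m + 1 + 1 = 2 * m + 2 from rfl]
    simp only [add_assoc]

theorem R_eval₂ {A : Type*} [CommRing A] (φ : ℤ →+* A) (x : A) (m : ℕ) :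
    (R m).eval₂ φ x = ((2 * m).choose m : A) +
      (1 + x) * ∑ t ∈ Finset.range m, ((2 * m).choose (m - 1 - t) : A) * x ^ (2 * t + 1) := by
  unfold R
  rw [eval₂_finsetSum]
  simp only [eval₂_mul, eval₂_C, eval₂_pow, eval₂_X]
  rw [pairs, Finset.mul_sum]
  congr 1
  · rw [pow_zero, mul_one, Nat.sub_zero, Nat.mul_div_cancel_left m (by norm_num : 0 < 2)]
    simp
  · apply Finset.sum_congr rfl
    intro t ht
    rw [Finset.mem_range] at ht
    have e1 : (2 * m - (2 * t + 1)) / 2 = m - 1 - t := by omega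
    have e2 : (2 * m - (2 * t + 2)) / 2 = m - 1 - t := by omega
    rw [e1, e2]
    simp only [map_natCast]
    ring

theorem R_map_eq {A : Type*} [CommRing A] (φ : ℤ →+* A) (m : ℕ) :
    (R m).map φ = (((2 * m).choose m : ℕ) : A[X]) +
      (1 + X) * ∑ t ∈ Finset.range m, (((2 * m).choose (m - 1 - t) : ℕ) : A[X]) * X ^ (2 * t + 1) := by
  have h := R_eval₂ ((C : A →+* A[X]).comp φ) X m
  exact h

theorem choose_cast {K : Type*} [CommRing K] {p : ℕ} [hp : Fact p.Prime] [CharP K p] {m j : ℕ}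
    (h1 : m < p) (h2 : p ≤ 2 * m) (hj : j < p) :
    (((2 * m).choose j : ℕ) : K) = (((2 * m - p).choose j : ℕ) : K) := by
  rw [CharP.natCast_eq_natCast K p]
  have h := Choose.choose_modEq_choose_mod_mul_choose_div_nat (p := p) (n := 2 * m) (k := j)
  have e1 : (2 * m) % p = 2 * m - p := by
    rw [Nat.mod_eq_sub_mod h2]
    exact Nat.mod_eq_of_lt (by omega)
  have e2 : (2 * m) / p = 1 := by
    apply Nat.div_eq_of_lt_le
    · omega
    · omega
  rw [e1, e2, Nat.mod_eq_of_lt hj, Nat.div_eq_of_lt hj, Nat.choose_zero_right, mul_one] at h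
  exact h

theorem R_map_prime {K : Type*} [CommRing K] {p : ℕ} [hp : Fact p.Prime] [CharP K p] (φ : ℤ →+* K)
    {m : ℕ} (h1 : m < p) (h2 : p ≤ 2 * m) :
    (R m).map φ = (X + 1) * X ^ (2 * (p - m) - 1) * (X ^ 2 + 1) ^ (2 * m - p) := by
  rw [R_map_eq]
  have hc : ∀ j, j < p → (((2 * m).choose j : ℕ) : K[X]) = (((2 * m - p).choose j : ℕ) : K[X]) := by
    intro j hj
    have h := choose_cast (K := K) h1 h2 hj
    have h3 := congrArg (C : K → K[X]) h
    simpa using h3
  have e0 : (((2 * m).choose m : ℕ) : K[X]) = 0 := by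
    rw [hc m h1, Nat.choose_eq_zero_of_lt (by omega)]
    simp
  rw [e0, zero_add]
  have hS : ∑ t ∈ Finset.range m, (((2 * m).choose (m - 1 - t) : ℕ) : K[X]) * X ^ (2 * t + 1) =
      X ^ (2 * (p - m) - 1) * (X ^ 2 + 1) ^ (2 * m - p) := by
    rw [← Finset.sum_range_reflect]
    have hr : ∀ j ∈ Finset.range m, (((2 * m).choose (m - 1 - (m - 1 - j)) : ℕ) : K[X]) *
        X ^ (2 * (m - 1 - j) + 1) =
        (((2 * m - p).choose j : ℕ) : K[X]) * X ^ (2 * (m - 1 - j) + 1) := by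
      intro j hj
      rw [Finset.mem_range] at hj
      have e : m - 1 - (m - 1 - j) = j := by omega
      rw [e, hc j (by omega)]
    rw [Finset.sum_congr rfl hr]
    have hsub : Finset.range (2 * m - p + 1) ⊆ Finset.range m := by
      intro x hx
      rw [Finset.mem_range] at hx ⊢
      omega
    rw [← Finset.sum_subset hsub]
    · rw [add_comm (X ^ 2) (1 : K[X]), add_pow, Finset.mul_sum]
      apply Finset.sum_congr rfl
      intro j hj
      rw [Finset.mem_range] at hj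
      have e : 2 * (m - 1 - j) + 1 = (2 * (p - m) - 1) + 2 * (2 * m - p - j) := by omega
      rw [e, pow_add, one_pow, one_mul, ← pow_mul]
      ring
    · intro x _ hx
      rw [Finset.mem_range, not_lt] at hx
      rw [Nat.choose_eq_zero_of_lt (by omega)]
      simp
  rw [hS]
  ring

theorem R_pos (m : ℕ) (x : ℝ) : 0 < (R m).eval₂ (Int.castRingHom ℝ) x := by
  rw [R_eval₂]
  have hc : (0 : ℝ) < ((2 * m).choose m : ℝ) := by
    exact_mod_cast Nat.choose_pos (by omega)
  rcases le_or_gt 0 x with hx | hx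
  · have : 0 ≤ (1 + x) * ∑ t ∈ Finset.range m, ((2 * m).choose (m - 1 - t) : ℝ) * x ^ (2 * t + 1) := by
      apply mul_nonneg (by linarith)
      apply Finset.sum_nonneg
      intro t _
      positivity
    linarith
  rcases le_or_gt x (-1) with hx1 | hx1
  · have : 0 ≤ (1 + x) * ∑ t ∈ Finset.range m, ((2 * m).choose (m - 1 - t) : ℝ) * x ^ (2 * t + 1) := by
      apply mul_nonneg_of_nonpos_of_nonpos (by linarith)
      apply Finset.sum_nonpos
      intro t _
      have : x ^ (2 * t + 1) ≤ 0 := by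
        apply Odd.pow_nonpos ⟨t, rfl⟩ hx.le
      exact mul_nonpos_of_nonneg_of_nonpos (by positivity) this
    linarith
  · obtain ⟨y, rfl⟩ : ∃ y, x = -y := ⟨-x, by ring⟩
    have hy0 : 0 < y := by linarith
    have hy1 : y < 1 := by linarith
    have e1 : ∑ t ∈ Finset.range m, ((2 * m).choose (m - 1 - t) : ℝ) * (-y) ^ (2 * t + 1) =
        - ∑ t ∈ Finset.range m, ((2 * m).choose (m - 1 - t) : ℝ) * y ^ (2 * t + 1) := by
      rw [← Finset.sum_neg_distrib]
      apply Finset.sum_congr rfl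
      intro t _
      rw [Odd.neg_pow ⟨t, rfl⟩]; ring
    have e2 : ∑ t ∈ Finset.range m, ((2 * m).choose (m - 1 - t) : ℝ) * y ^ (2 * t + 1) ≤
        ((2 * m).choose m : ℝ) * ∑ t ∈ Finset.range m, y ^ (2 * t + 1) := by
      rw [Finset.mul_sum]
      apply Finset.sum_le_sum
      intro t _
      apply mul_le_mul_of_nonneg_right _ (by positivity)
      exact_mod_cast Nat.choose_le_centralBinom _ m
    have e3 : ∀ n : ℕ, (1 + y) * ((1 - y) * ∑ t ∈ Finset.range n, y ^ (2 * t + 1)) =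
        y * (1 - y ^ (2 * n)) := by
      intro n
      induction n with
      | zero => simp
      | succ n ih =>
        rw [Finset.sum_range_succ, mul_add, mul_add, ih]
        ring
    have e4 : (1 - y) * ∑ t ∈ Finset.range m, y ^ (2 * t + 1) < 1 := by
      have h := e3 m
      have hp : 0 ≤ y ^ (2 * m) := by positivity
      have : (1 + y) * ((1 - y) * ∑ t ∈ Finset.range m, y ^ (2 * t + 1)) < 1 + y := by
        rw [h]; nlinarith
      by_contra hc
      push Not at hc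
      nlinarith
    rw [e1]
    have e5 : (1 - y) * ∑ t ∈ Finset.range m, ((2 * m).choose (m - 1 - t) : ℝ) * y ^ (2 * t + 1) ≤
        ((2 * m).choose m : ℝ) * ((1 - y) * ∑ t ∈ Finset.range m, y ^ (2 * t + 1)) := by
      have := mul_le_mul_of_nonneg_left e2 (by linarith : (0:ℝ) ≤ 1 - y)
      linarith
    nlinarith

theorem R_gauss (m : ℕ) (hm : 1 ≤ m) :
    (R m).eval₂ (Int.castRingHom (ℤ√(-1))) ⟨0, 1⟩ =
      ⟨((2 * m - 1).choose (m - 1) : ℤ), ((2 * m - 1).choose (m - 1) : ℤ)⟩ := by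
  rw [R_eval₂]
  have hz : ∀ z : ℤ, (z : ℤ√(-1)) = ⟨z, 0⟩ := fun z => by ext <;> simp
  have hn : ∀ n : ℕ, (n : ℤ√(-1)) = ⟨n, 0⟩ := fun z => by ext <;> simp
  have hpow : ∀ t : ℕ, (⟨0, 1⟩ : ℤ√(-1)) ^ (2 * t + 1) = ⟨0, (-1) ^ t⟩ := by
    intro t
    induction t with
    | zero => simp
    | succ t ih =>
      rw [show 2 * (t + 1) + 1 = (2 * t + 1) + 2 from by ring, pow_add, ih]
      ext
      · simp [pow_two]
      · simp [pow_succ]
  have hsum : ∑ t ∈ Finset.range m, (((2 * m).choose (m - 1 - t) : ℕ) : ℤ√(-1)) * ⟨0, 1⟩ ^ (2 * t + 1) =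
      ⟨0, ((2 * m - 1).choose (m - 1) : ℤ)⟩ := by
    have h1 : ∀ t ∈ Finset.range m, (((2 * m).choose (m - 1 - t) : ℕ) : ℤ√(-1)) * ⟨0, 1⟩ ^ (2 * t + 1) =
        ⟨0, 1⟩ * (((-1) ^ t * ((2 * m).choose (m - 1 - t) : ℤ) : ℤ) : ℤ√(-1)) := by
      intro t _
      rw [hpow, hz, hn]
      ext
      · simp
      · simp [mul_comm]
    rw [Finset.sum_congr rfl h1, ← Finset.mul_sum, ← Int.cast_sum]
    have h2 : ∑ t ∈ Finset.range m, (-1 : ℤ) ^ t * ((2 * m).choose (m - 1 - t) : ℤ) =
        ((2 * m - 1).choose (m - 1) : ℤ) := by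
      obtain ⟨k, rfl⟩ : ∃ k, m = k + 1 := ⟨m - 1, by omega⟩
      have h3 := Int.alternating_sum_range_choose_eq_choose (n := 2 * (k + 1) - 1) (m := k)
      rw [← Finset.sum_range_reflect] at h3
      have e0 : 2 * (k + 1) - 1 + 1 = 2 * (k + 1) := by omega
      rw [e0] at h3
      have h4 : ∑ t ∈ Finset.range (k + 1), (-1 : ℤ) ^ t * ((2 * (k + 1)).choose (k + 1 - 1 - t) : ℤ) =
          (-1) ^ k * ∑ j ∈ Finset.range (k + 1), (-1 : ℤ) ^ (k + 1 - 1 - j) *
            ((2 * (k + 1)).choose (k + 1 - 1 - j) : ℤ) := by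
        rw [Finset.mul_sum]
        apply Finset.sum_congr rfl
        intro j hj
        rw [Finset.mem_range] at hj
        rw [← mul_assoc, ← pow_add]
        congr 1
        have e : k + (k + 1 - 1 - j) = j + 2 * (k - j) := by omega
        rw [e, pow_add, pow_mul]
        simp
      rw [h4, h3, ← mul_assoc, ← mul_pow]
      simp
    rw [h2]
    ext
    · simp
    · simp
  rw [hsum]
  have hb : ((2 * m).choose m : ℤ) = 2 * ((2 * m - 1).choose (m - 1) : ℤ) := by
    obtain ⟨k, rfl⟩ : ∃ k, m = k + 1 := ⟨m - 1, by omega⟩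
    have e0 : 2 * (k + 1) = (2 * k + 1) + 1 := by ring
    have e1 : 2 * (k + 1) - 1 = 2 * k + 1 := by omega
    have e2 : k + 1 - 1 = k := by omega
    rw [e1, e2, e0, Nat.choose_succ_succ']
    have h := Nat.choose_symm_half k
    rw [h]
    push_cast
    ring
  have hb2 : ((((2 * m).choose m : ℕ) : ℤ√(-1))) = ⟨2 * ((2 * m - 1).choose (m - 1) : ℤ), 0⟩ := by
    rw [← hb]
    ext <;> simp
  rw [hb2]
  ext
  · simp; ring
  · simp

end Pool.Agent.Helper98K9.Pasc
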