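import Mathlib
import Pool.Agent.Helper98K9.Pasc.Poly

set_option autoImplicit false

open Polynomial

namespace Pool.Agent.Helper98K9.Pasc

theorem two_choose {m : ℕ} (hm : 1 ≤ m) :
    (2 * m).choose m = 2 * (2 * m - 1).choose (m - 1) := by
  obtain ⟨k, rfl⟩ : ∃ k, m = k + 1 := ⟨m - 1, by omega⟩
  have e0 : 2 * (k + 1) = (2 * k + 1) + 1 := by ring
  have e1 : 2 * (k + 1) - 1 = 2 * k + 1 := by omega
  have e2 : k + 1 - 1 = k := by omega
  rw [e1, e2, e0, Nat.choose_succ_succ']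
  have h := Nat.choose_symm_half k
  rw [h]
  ring

theorem dvd_choose {m p : ℕ} [hp : Fact p.Prime] (h1 : m < p) (h2 : p ≤ 2 * m) :
    p ∣ (2 * m).choose m := by
  have h := choose_cast (K := ZMod p) h1 h2 h1
  rw [Nat.choose_eq_zero_of_lt (show 2 * m - p < m by omega), Nat.cast_zero,
    ZMod.natCast_eq_zero_iff] at h
  exact h

theorem sq_not_dvd {m p : ℕ} [hp : Fact p.Prime] (h1 : m < p) (_h2 : p ≤ 2 * m) :
    ¬ p ^ 2 ∣ (2 * m).choose m := by
  intro h
  have h3 := Nat.factorization_choose_le_one (p := p) (n := 2 * m) (k := m) (by nlinarith)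
  have h4 : 2 ≤ ((2 * m).choose m).factorization p :=
    (hp.out.pow_dvd_iff_le_factorization (Nat.choose_pos (by omega)).ne').1 h
  omega

theorem B_dvd {m p : ℕ} [hp : Fact p.Prime] (hp2 : p ≠ 2) (hm : 1 ≤ m) (h1 : m < p)
    (h2 : p ≤ 2 * m) : (p : ℤ) ∣ ((2 * m - 1).choose (m - 1) : ℤ) := by
  have h := dvd_choose h1 h2
  rw [two_choose hm] at h
  rcases hp.out.dvd_mul.1 h with h3 | h3
  · exact absurd ((Nat.prime_dvd_prime_iff_eq hp.out Nat.prime_two).1 h3) hp2
  · exact_mod_cast h3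

theorem B_sq {m p : ℕ} [hp : Fact p.Prime] (hm : 1 ≤ m) (h1 : m < p)
    (h2 : p ≤ 2 * m) : ¬ (p : ℤ) ^ 2 ∣ ((2 * m - 1).choose (m - 1) : ℤ) := by
  intro h
  apply sq_not_dvd h1 h2
  rw [two_choose hm]
  exact Dvd.dvd.mul_left (by exact_mod_cast h) 2

section main

variable {K : Type*} [Field K] {p : ℕ} [hp : Fact p.Prime] [CharP K p]

omit hp in
theorem cast_zero_iff (z : ℤ) : (z : K) = 0 ↔ (p : ℤ) ∣ z := CharP.intCast_eq_zero_iff K p z

theorem not_both_zero {m : ℕ} (h1 : m < p) (h2 : p ≤ 2 * m) {F G : ℤ[X]} (hFG : F * G = R m)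
    (hF : (F.map (Int.castRingHom K)).eval 0 = 0) (hG : (G.map (Int.castRingHom K)).eval 0 = 0) :
    False := by
  rw [← coeff_zero_eq_eval_zero, coeff_map] at hF hG
  have hF' : (p : ℤ) ∣ F.coeff 0 := (cast_zero_iff (K := K) _).1 (by simpa using hF)
  have hG' : (p : ℤ) ∣ G.coeff 0 := (cast_zero_iff (K := K) _).1 (by simpa using hG)
  have h3 : F.coeff 0 * G.coeff 0 = ((2 * m).choose m : ℤ) := by
    rw [← mul_coeff_zero, hFG, R_coeff, if_pos (by omega), Nat.sub_zero,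
      Nat.mul_div_cancel_left m (by norm_num)]
  have h4 : (p : ℤ) ^ 2 ∣ ((2 * m).choose m : ℤ) := by
    rw [← h3, pow_two]
    exact mul_dvd_mul hF' hG'
  exact sq_not_dvd h1 h2 (by exact_mod_cast h4)

theorem not_both_i {m : ℕ} (hp2 : p ≠ 2) (h1 : m < p) (h2 : p ≤ 2 * m) {F G : ℤ[X]}
    (hFG : F * G = R m) {i : K} (hi : i * i = -1)
    (hF : (F.map (Int.castRingHom K)).eval i = 0) (hG : (G.map (Int.castRingHom K)).eval i = 0) :
    False := by
  have hm : 1 ≤ m := by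
    have := hp.out.two_le
    omega
  have hpp : Prime (p : ℤ) := Nat.prime_iff_prime_int.1 hp.out
  set B : ℤ := ((2 * m - 1).choose (m - 1) : ℤ) with hB
  have hBd : (p : ℤ) ∣ B := B_dvd hp2 hm h1 h2
  have hBs : ¬ (p : ℤ) ^ 2 ∣ B := B_sq hm h1 h2
  -- Gaussian values
  rcases hFi : F.eval₂ (Int.castRingHom (ℤ√(-1))) ⟨0, 1⟩ with ⟨u1, v1⟩
  rcases hGi : G.eval₂ (Int.castRingHom (ℤ√(-1))) ⟨0, 1⟩ with ⟨u2, v2⟩
  have hprod : (⟨u1, v1⟩ : ℤ√(-1)) * ⟨u2, v2⟩ = ⟨B, B⟩ := by
    rw [← hFi, ← hGi, ← eval₂_mul, hFG, R_gauss m hm]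
  have hre : u1 * u2 - v1 * v2 = B := by
    have := congrArg Zsqrtd.re hprod
    simp only [Zsqrtd.re_mul] at this
    linarith
  have him : u1 * v2 + v1 * u2 = B := by
    have := congrArg Zsqrtd.im hprod
    simp only [Zsqrtd.im_mul] at this
    linarith
  let ψ : ℤ√(-1) →+* K := Zsqrtd.lift ⟨i, by simpa using hi⟩
  have hψ : ∀ (P : ℤ[X]), (P.map (Int.castRingHom K)).eval i =
      ψ (P.eval₂ (Int.castRingHom (ℤ√(-1))) ⟨0, 1⟩) := by
    intro P
    rw [hom_eval₂, eval_map]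
    have e1 : ψ.comp (Int.castRingHom (ℤ√(-1))) = Int.castRingHom K := RingHom.ext_int _ _
    have e2 : ψ ⟨0, 1⟩ = i := by simp [ψ]
    rw [e1, e2]
  have hF1 : (u1 : K) + v1 * i = 0 := by
    rw [hψ, hFi] at hF
    simpa [ψ] using hF
  have hG1 : (u2 : K) + v2 * i = 0 := by
    rw [hψ, hGi] at hG
    simpa [ψ] using hG
  have hN1 : (p : ℤ) ∣ u1 ^ 2 + v1 ^ 2 := by
    rw [← cast_zero_iff (K := K)]
    push_cast
    linear_combination ((u1 : K) - v1 * i) * hF1 + (v1 : K) ^ 2 * hi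
  have hN2 : (p : ℤ) ∣ u2 ^ 2 + v2 ^ 2 := by
    rw [← cast_zero_iff (K := K)]
    push_cast
    linear_combination ((u2 : K) - v2 * i) * hG1 + (v2 : K) ^ 2 * hi
  have hcr : (p : ℤ) ∣ v1 * u2 - u1 * v2 := by
    rw [← cast_zero_iff (K := K)]
    push_cast
    linear_combination (v1 : K) * hG1 - (v2 : K) * hF1
  have hNN : (u1 ^ 2 + v1 ^ 2) * (u2 ^ 2 + v2 ^ 2) = 2 * B ^ 2 := by
    have : (u1 ^ 2 + v1 ^ 2) * (u2 ^ 2 + v2 ^ 2) =
        (u1 * u2 - v1 * v2) ^ 2 + (u1 * v2 + v1 * u2) ^ 2 := by ring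
    rw [this, hre, him]; ring
  have h2p : ¬ (p : ℤ) ∣ 2 := by
    intro h
    have : p ∣ 2 := by exact_mod_cast h
    exact hp2 ((Nat.prime_dvd_prime_iff_eq hp.out Nat.prime_two).1 this)
  obtain ⟨b, hb⟩ := hBd
  have hbp : ¬ (p : ℤ) ∣ b := by
    rintro ⟨c, hc⟩
    exact hBs ⟨c, by rw [hb, hc]; ring⟩
  have hp0 : (p : ℤ) ≠ 0 := hpp.ne_zero
  have key : ∀ a c : ℤ, (p : ℤ) ∣ c → a * c = 2 * B ^ 2 → ¬ (p : ℤ) ^ 2 ∣ a := by
    rintro a c ⟨c', hc'⟩ hac ⟨a', ha'⟩
    have e : (p : ℤ) ^ 2 * ((p : ℤ) * (a' * c')) = (p : ℤ) ^ 2 * (2 * b ^ 2) := by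
      rw [ha', hc', hb] at hac
      linear_combination hac
    have e2 := mul_left_cancel₀ (pow_ne_zero 2 hp0) e
    have e3 : (p : ℤ) ∣ 2 * b ^ 2 := ⟨_, e2.symm⟩
    rcases hpp.dvd_or_dvd e3 with h | h
    · exact h2p h
    · exact hbp (hpp.dvd_of_dvd_pow h)
  have hn1 : ¬ (p : ℤ) ^ 2 ∣ u1 ^ 2 + v1 ^ 2 := key _ _ hN2 hNN
  have hn2 : ¬ (p : ℤ) ^ 2 ∣ u2 ^ 2 + v2 ^ 2 := key _ _ hN1 (by rw [← hNN]; ring)
  have h5 : (p : ℤ) ∣ 2 * (u1 * v2) := by
    have : 2 * (u1 * v2) = B - (v1 * u2 - u1 * v2) := by rw [← him]; ring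
    rw [this]
    exact dvd_sub ⟨b, hb⟩ hcr
  have h6 : (p : ℤ) ∣ u1 * v2 := (hpp.dvd_or_dvd h5).resolve_left h2p
  rcases hpp.dvd_or_dvd h6 with h7 | h7
  · have h8 : (p : ℤ) ∣ v1 ^ 2 := by
      have : v1 ^ 2 = (u1 ^ 2 + v1 ^ 2) - u1 ^ 2 := by ring
      rw [this]
      exact dvd_sub hN1 (Dvd.dvd.pow h7 (by norm_num))
    have h9 := hpp.dvd_of_dvd_pow h8
    exact hn1 (dvd_add (pow_dvd_pow_of_dvd h7 2) (pow_dvd_pow_of_dvd h9 2))
  · have h8 : (p : ℤ) ∣ u2 ^ 2 := by
      have : u2 ^ 2 = (u2 ^ 2 + v2 ^ 2) - v2 ^ 2 := by ring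
      rw [this]
      exact dvd_sub hN2 (Dvd.dvd.pow h7 (by norm_num))
    have h9 := hpp.dvd_of_dvd_pow h8
    exact hn2 (dvd_add (pow_dvd_pow_of_dvd h9 2) (pow_dvd_pow_of_dvd h7 2))

theorem struct [IsAlgClosed K] {m : ℕ} (hp2 : p ≠ 2) (h1 : m < p) (h2 : p ≤ 2 * m) {F G : ℤ[X]}
    (hFm : F.Monic) (hGm : G.Monic) (hFG : F * G = R m) {i : K} (hi : i * i = -1) :
    ∃ e c a b : ℕ, e ≤ 1 ∧ c ≤ 1 ∧ a ≤ 1 ∧ b ≤ 1 ∧ G.map (Int.castRingHom K) =
      (X + 1) ^ e * X ^ (c * (2 * (p - m) - 1)) * (X - C i) ^ (a * (2 * m - p)) *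
        (X + C i) ^ (b * (2 * m - p)) := by
  classical
  set f : K[X] := F.map (Int.castRingHom K) with hf
  set g : K[X] := G.map (Int.castRingHom K) with hg
  have hfm : f.Monic := hFm.map _
  have hgm : g.Monic := hGm.map _
  set L := 2 * (p - m) - 1 with hL
  set r := 2 * m - p with hr
  have hfg : f * g = (X + 1) * X ^ L * ((X - C i) * (X + C i)) ^ r := by
    rw [hf, hg, ← Polynomial.map_mul, hFG, R_map_prime (p := p) _ h1 h2]
    congr 2
    have : (C i * C i : K[X]) = -1 := by rw [← C_mul, hi]; simp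
    linear_combination this
  have hne : f * g ≠ 0 := (hfm.mul hgm).ne_zero
  -- distinctness
  have h2K : (2 : K) ≠ 0 := by
    intro h
    have h' : ((2 : ℤ) : K) = 0 := by exact_mod_cast h
    rw [cast_zero_iff (p := p)] at h'
    have : p ∣ 2 := by exact_mod_cast h'
    exact hp2 ((Nat.prime_dvd_prime_iff_eq hp.out Nat.prime_two).1 this)
  have hi0 : i ≠ 0 := by
    rintro rfl
    simp at hi
  have hi1 : i ≠ -1 := by
    rintro rfl
    apply h2K
    linear_combination hi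
  have hi1' : -i ≠ -1 := by
    intro h
    have : i = 1 := by linear_combination -h
    apply h2K
    rw [this] at hi
    linear_combination hi
  have hii : i ≠ -i := by
    intro h
    have : 2 * i = 0 := by linear_combination h
    rcases mul_eq_zero.1 this with h | h
    · exact h2K h
    · exact hi0 h
  have hroots : f.roots + g.roots = {(-1 : K)} + L • {(0 : K)} + (r • {i} + r • {-i}) := by
    rw [← roots_mul hne, hfg]
    have e1 : (X + 1 : K[X]) = X - C (-1) := by simp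
    have e2 : (X + C i : K[X]) = X - C (-i) := by simp
    rw [e1, e2]
    have n1 : (X - C (-1) : K[X]) ≠ 0 := X_sub_C_ne_zero _
    have n2 : (X - C i : K[X]) ≠ 0 := X_sub_C_ne_zero _
    have n3 : (X - C (-i) : K[X]) ≠ 0 := X_sub_C_ne_zero _
    rw [roots_mul (mul_ne_zero (mul_ne_zero n1 (pow_ne_zero _ X_ne_zero))
      (pow_ne_zero _ (mul_ne_zero n2 n3))), roots_mul (mul_ne_zero n1 (pow_ne_zero _ X_ne_zero)),
      roots_pow, roots_pow, roots_mul (mul_ne_zero n2 n3), roots_X_sub_C, roots_X_sub_C,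
      roots_X_sub_C, roots_X, smul_add]
  have hcount : ∀ x : K, f.roots.count x + g.roots.count x =
      (if x = -1 then 1 else 0) + L * (if x = 0 then 1 else 0) +
        (r * (if x = i then 1 else 0) + r * (if x = -i then 1 else 0)) := by
    intro x
    rw [← Multiset.count_add, hroots]
    simp only [Multiset.count_add, Multiset.count_nsmul, Multiset.count_singleton]
  -- dichotomies
  have mem0 : ∀ {P : K[X]} {x : K}, 0 < P.roots.count x → P.eval x = 0 := by
    intro P x hx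
    have := Multiset.count_pos.1 hx
    exact (mem_roots'.1 this).2
  have c0 : f.roots.count 0 = 0 ∨ g.roots.count 0 = 0 := by
    by_contra hc
    push Not at hc
    exact not_both_zero (K := K) h1 h2 hFG (mem0 (Nat.pos_of_ne_zero hc.1))
      (mem0 (Nat.pos_of_ne_zero hc.2))
  have ci : f.roots.count i = 0 ∨ g.roots.count i = 0 := by
    by_contra hc
    push Not at hc
    exact not_both_i (K := K) hp2 h1 h2 hFG hi (mem0 (Nat.pos_of_ne_zero hc.1))
      (mem0 (Nat.pos_of_ne_zero hc.2))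
  have ci' : f.roots.count (-i) = 0 ∨ g.roots.count (-i) = 0 := by
    by_contra hc
    push Not at hc
    exact not_both_i (K := K) hp2 h1 h2 hFG (i := -i) (by rw [neg_mul_neg]; exact hi)
      (mem0 (Nat.pos_of_ne_zero hc.1)) (mem0 (Nat.pos_of_ne_zero hc.2))
  have k1 := hcount (-1)
  have k0 := hcount 0
  have ki := hcount i
  have ki' := hcount (-i)
  rw [if_pos rfl, if_neg (by norm_num), if_neg hi1.symm, if_neg hi1'.symm] at k1
  rw [if_neg (by norm_num), if_pos rfl, if_neg hi0.symm, if_neg (by simpa using hi0)] at k0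
  rw [if_neg hi1, if_neg hi0, if_pos rfl, if_neg hii] at ki
  rw [if_neg hi1', if_neg (by simpa using hi0), if_neg hii.symm, if_pos rfl] at ki'
  have hgroots : g.roots = Multiset.replicate (g.roots.count (-1)) (-1) +
      Multiset.replicate (g.roots.count 0) 0 + Multiset.replicate (g.roots.count i) i +
      Multiset.replicate (g.roots.count (-i)) (-i) := by
    ext x
    simp only [Multiset.count_add, Multiset.count_replicate]
    by_cases hx1 : x = -1
    · subst hx1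
      rw [if_pos rfl, if_neg (by norm_num), if_neg hi1, if_neg hi1']
      simp
    by_cases hx0 : x = 0
    · subst hx0
      rw [if_neg (by norm_num), if_pos rfl, if_neg hi0, if_neg (by simpa using hi0)]
      simp
    by_cases hxi : x = i
    · subst hxi
      rw [if_neg hi1.symm, if_neg hi0.symm, if_pos rfl, if_neg hii.symm]
      simp
    by_cases hxi' : x = -i
    · subst hxi'
      rw [if_neg hi1'.symm, if_neg (by simpa using hi0), if_neg hii, if_pos rfl]
      simp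
    · have := hcount x
      rw [if_neg hx1, if_neg hx0, if_neg hxi, if_neg hxi'] at this
      rw [if_neg (Ne.symm hx1), if_neg (Ne.symm hx0), if_neg (Ne.symm hxi), if_neg (Ne.symm hxi')]
      omega
  have hgprod : g = (X + 1) ^ (g.roots.count (-1)) * X ^ (g.roots.count 0) *
      (X - C i) ^ (g.roots.count i) * (X + C i) ^ (g.roots.count (-i)) := by
    conv_lhs => rw [(IsAlgClosed.splits g).eq_prod_roots_of_monic hgm, hgroots]
    simp only [Multiset.map_add, Multiset.prod_add, Multiset.map_replicate, Multiset.prod_replicate]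
    simp
  refine ⟨g.roots.count (-1), if g.roots.count 0 = 0 then 0 else 1,
    if g.roots.count i = 0 then 0 else 1, if g.roots.count (-i) = 0 then 0 else 1, ?_, ?_, ?_, ?_, ?_⟩
  · omega
  · split_ifs <;> omega
  · split_ifs <;> omega
  · split_ifs <;> omega
  · have e0 : (if g.roots.count 0 = 0 then 0 else 1) * L = g.roots.count 0 := by
      split_ifs with h
      · omega
      · rcases c0 with h | h <;> omega
    have e1 : (if g.roots.count i = 0 then 0 else 1) * r = g.roots.count i := by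
      split_ifs with h
      · omega
      · rcases ci with h | h <;> omega
    have e2 : (if g.roots.count (-i) = 0 then 0 else 1) * r = g.roots.count (-i) := by
      split_ifs with h
      · omega
      · rcases ci' with h | h <;> omega
    rw [e0, e1, e2]
    exact hgprod

end main

end Pool.Agent.Helper98K9.Pasc
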