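import Mathlib
import Pool.Agent.Helper98K9.Pasc.Struct
import Pool.Agent.Helper98K9.Pasc.Primes

set_option autoImplicit false

open Polynomial

namespace Pool.Agent.Helper98K9.Pasc

theorem even_deg {m : ℕ} {F G : ℤ[X]} (hGm : G.Monic) (hFG : F * G = R m) : Even G.natDegree := by
  by_contra hodd
  rw [Nat.not_even_iff_odd] at hodd
  set P : ℝ[X] := G.map (Int.castRingHom ℝ) with hP
  have hPm : P.Monic := hGm.map _
  have hPd : P.natDegree = G.natDegree := hGm.natDegree_map _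
  have hno : ∀ y, ¬ P.IsRoot y := by
    intro y hy
    have h1 := R_pos m y
    rw [← hFG, eval₂_mul, ← eval_map (p := G), ← hP, hy, mul_zero] at h1
    exact lt_irrefl _ h1
  have h1 := Polynomial.zero_lt_eval_of_roots_lt_of_leadingCoeff_nonneg (P := P) (x := 0)
    (fun y hy => absurd hy (hno y)) (by rw [hPm]; norm_num)
  have h2 := Polynomial.zero_lt_negOnePow_mul_eval_of_lt_roots_of_leadingCoeff_nonneg (P := P) (x := 0)
    (fun y hy => absurd hy (hno y)) (by rw [hPm]; norm_num)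
  rw [hPd, Int.negOnePow_odd _ (by exact_mod_cast hodd)] at h2
  push_cast at h2
  linarith

theorem natDeg_formula {K : Type*} [Field K] {G : ℤ[X]} (hGm : G.Monic) {e n1 n2 n3 : ℕ} {i : K}
    (hG : G.map (Int.castRingHom K) = (X + 1) ^ e * X ^ n1 * (X - C i) ^ n2 * (X + C i) ^ n3) :
    G.natDegree = e + n1 + n2 + n3 := by
  have hd : (G.map (Int.castRingHom K)).natDegree = G.natDegree := hGm.natDegree_map _
  rw [← hd, hG]
  have m1 : (X + 1 : K[X]).Monic := by
    have := monic_X_add_C (1 : K)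
    simpa using this
  have m2 : (X - C i : K[X]).Monic := monic_X_sub_C i
  have m3 : (X + C i : K[X]).Monic := monic_X_add_C i
  have m0 : (X : K[X]).Monic := monic_X
  rw [Monic.natDegree_mul (((m1.pow _).mul (m0.pow _)).mul (m2.pow _)) (m3.pow _),
    Monic.natDegree_mul ((m1.pow _).mul (m0.pow _)) (m2.pow _),
    Monic.natDegree_mul (m1.pow _) (m0.pow _), m1.natDegree_pow, m0.natDegree_pow,
    m2.natDegree_pow, m3.natDegree_pow]
  have d1 : (X + 1 : K[X]).natDegree = 1 := by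
    have := natDegree_X_add_C (1 : K)
    simpa using this
  rw [d1, natDegree_X, natDegree_X_sub_C, natDegree_X_add_C]
  ring

theorem deg_struct {m p : ℕ} [hp : Fact p.Prime] (hp2 : p ≠ 2) (h1 : m < p) (h2 : p ≤ 2 * m)
    {F G : ℤ[X]} (hFm : F.Monic) (hGm : G.Monic) (hFG : F * G = R m) :
    ∃ e c s : ℕ, e ≤ 1 ∧ c ≤ 1 ∧ s ≤ 2 ∧
      G.natDegree = e + c * (2 * (p - m) - 1) + s * (2 * m - p) := by
  let K := AlgebraicClosure (ZMod p)
  obtain ⟨i, hi⟩ : ∃ i : K, i * i = -1 := by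
    obtain ⟨i, hi⟩ := IsAlgClosed.exists_pow_nat_eq (-1 : K) (n := 2) (by norm_num)
    exact ⟨i, by rw [← hi]; ring⟩
  have : CharP K p := charP_of_injective_algebraMap (algebraMap (ZMod p) K).injective p
  obtain ⟨e, c, a, b, he, hc, ha, hb, hG⟩ := struct (K := K) hp2 h1 h2 hFm hGm hFG hi
  refine ⟨e, c, a + b, he, hc, by omega, ?_⟩
  rw [natDeg_formula (K := K) hGm hG]
  ring

theorem three_vals {m p g : ℕ} (hp : p.Prime) (hp2 : p ≠ 2) (h1 : m < p) (h2 : p ≤ 2 * m)
    (hg : Even g) (hg2 : 2 ≤ g) (hgm : g ≤ m) {e c s : ℕ} (he : e ≤ 1) (hc : c ≤ 1) (hs : s ≤ 2)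
    (h : g = e + c * (2 * (p - m) - 1) + s * (2 * m - p)) :
    p = 2 * m - g + 1 ∨ p = 2 * m - g / 2 ∨ p = m + g / 2 := by
  obtain ⟨q, hq⟩ := hp.odd_of_ne_two hp2
  obtain ⟨t, ht⟩ := hg
  have ec : c = 0 ∨ c = 1 := by omega
  have ee : e = 0 ∨ e = 1 := by omega
  have es : s = 0 ∨ s = 1 ∨ s = 2 := by omega
  rcases ec with rfl | rfl <;> rcases ee with rfl | rfl <;> rcases es with rfl | rfl | rfl <;> omega

theorem large {m : ℕ} (hm : 15 ≤ m) {F G : ℤ[X]} (hFm : F.Monic) (hGm : G.Monic)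
    (hFG : F * G = R m) (h0 : 0 < G.natDegree) (h1 : G.natDegree ≤ m) : False := by
  have hev := even_deg hGm hFG
  have hg2 : 2 ≤ G.natDegree := by
    obtain ⟨t, ht⟩ := hev
    omega
  have h4 := four_primes m hm
  have hsub : (Finset.Ioc m (2 * m)).filter Nat.Prime ⊆
      {2 * m - G.natDegree + 1, 2 * m - G.natDegree / 2, m + G.natDegree / 2} := by
    intro p hp
    rw [Finset.mem_filter, Finset.mem_Ioc] at hp
    have : Fact p.Prime := ⟨hp.2⟩
    obtain ⟨e, c, s, he, hc, hs, hG⟩ := deg_struct (p := p) (by omega) hp.1.1 hp.1.2 hFm hGm hFG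
    have := three_vals hp.2 (by omega) hp.1.1 hp.1.2 hev hg2 h1 he hc hs hG
    simp only [Finset.mem_insert, Finset.mem_singleton]
    exact this
  have h5 := Finset.card_le_card hsub
  have h6 : ({2 * m - G.natDegree + 1, 2 * m - G.natDegree / 2, m + G.natDegree / 2} :
      Finset ℕ).card ≤ 3 := Finset.card_le_three
  omega

end Pool.Agent.Helper98K9.Pasc
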