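import Mathlib
import Pool.Agent.Helper98K9.Pasc.Large

set_option autoImplicit false

open Polynomial

namespace Pool.Agent.Helper98K9.Pasc

def nxt (q g1 g2 g3 g4 c : ℕ) (x : ℕ × ℕ × ℕ × ℕ) : ℕ × ℕ × ℕ × ℕ :=
  ((c + (q - g1) * x.1 + (q - g2) * x.2.1 + (q - g3) * x.2.2.1 + (q - g4) * x.2.2.2) % q,
    x.1, x.2.1, x.2.2.1)

def St (q g1 g2 g3 g4 : ℕ) (l : List ℕ) : ℕ × ℕ × ℕ × ℕ :=
  l.foldr (nxt q g1 g2 g3 g4) (0, 0, 0, 0)

theorem run_spec {q : ℕ} [Fact q.Prime] (c : ℕ → ℕ) (F G P : (ZMod q)[X]) (hFG : F * G = P)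
    (hc : ∀ k, (c k : ZMod q) = P.coeff k) {g1 g2 g3 g4 : ℕ} (h1 : g1 ≤ q) (h2 : g2 ≤ q)
    (h3 : g3 ≤ q) (h4 : g4 ≤ q)
    (hG : G = 1 + C (g1 : ZMod q) * X + C (g2 : ZMod q) * X ^ 2 + C (g3 : ZMod q) * X ^ 3 +
      C (g4 : ZMod q) * X ^ 4) (s : ℕ) :
    ((St q g1 g2 g3 g4 (((List.range s).reverse).map c)).1 : ZMod q) = (F * X ^ 4).coeff (s + 3) ∧
    ((St q g1 g2 g3 g4 (((List.range s).reverse).map c)).2.1 : ZMod q) = (F * X ^ 4).coeff (s + 2) ∧
    ((St q g1 g2 g3 g4 (((List.range s).reverse).map c)).2.2.1 : ZMod q) =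
      (F * X ^ 4).coeff (s + 1) ∧
    ((St q g1 g2 g3 g4 (((List.range s).reverse).map c)).2.2.2 : ZMod q) =
      (F * X ^ 4).coeff s := by
  induction s with
  | zero =>
    simp only [List.range_zero, List.reverse_nil, List.map_nil, St, List.foldr_nil, Nat.cast_zero,
      coeff_mul_X_pow']
    norm_num
  | succ s ih =>
    obtain ⟨i1, i2, i3, i4⟩ := ih
    rw [List.range_succ, List.reverse_append, List.map_append]
    simp only [List.reverse_cons, List.reverse_nil, List.nil_append, List.map_cons, List.map_nil,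
      List.cons_append]
    set x := St q g1 g2 g3 g4 (((List.range s).reverse).map c) with hx
    have hst : St q g1 g2 g3 g4 (c s :: ((List.range s).reverse).map c) =
        nxt q g1 g2 g3 g4 (c s) x := rfl
    rw [hst]
    have hrec : (F * X ^ 4).coeff (s + 4) + (g1 : ZMod q) * (F * X ^ 4).coeff (s + 3) +
        (g2 : ZMod q) * (F * X ^ 4).coeff (s + 2) + (g3 : ZMod q) * (F * X ^ 4).coeff (s + 1) +
        (g4 : ZMod q) * (F * X ^ 4).coeff s = P.coeff s := by
      have hW : (F * X ^ 4) + (C (g1 : ZMod q) * (F * X ^ 4)) * X ^ 1 +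
          (C (g2 : ZMod q) * (F * X ^ 4)) * X ^ 2 + (C (g3 : ZMod q) * (F * X ^ 4)) * X ^ 3 +
          (C (g4 : ZMod q) * (F * X ^ 4)) * X ^ 4 = P * X ^ 4 := by
        rw [← hFG, hG]; ring
      have h := congrArg (fun p => p.coeff (s + 4)) hW
      simp only [coeff_add] at h
      rw [coeff_mul_X_pow P, show s + 4 = (s + 3) + 1 from rfl, coeff_mul_X_pow _ 1,
        show s + 3 + 1 = (s + 2) + 2 from rfl, coeff_mul_X_pow _ 2,
        show s + 2 + 2 = (s + 1) + 3 from rfl, coeff_mul_X_pow _ 3,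
        show s + 1 + 3 = s + 4 from rfl] at h
      rw [coeff_mul_X_pow (C (g4 : ZMod q) * (F * X ^ 4)) 4, coeff_C_mul, coeff_C_mul, coeff_C_mul,
        coeff_C_mul] at h
      exact h
    refine ⟨?_, ?_, ?_, ?_⟩
    · simp only [nxt]
      rw [ZMod.natCast_mod]
      push_cast [Nat.cast_sub h1, Nat.cast_sub h2, Nat.cast_sub h3, Nat.cast_sub h4]
      rw [hc, i1, i2, i3, i4, ← hrec]
      simp only [CharP.cast_eq_zero]
      rw [show s + 1 + 3 = s + 4 from rfl]
      ring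
    · simp only [nxt]
      rw [i1]
    · simp only [nxt]
      rw [i2]
    · simp only [nxt]
      rw [i3]

/-- coefficients of the Pascalian polynomial -/
def cc (m k : ℕ) : ℕ := if k < 2 * m + 1 then (2 * m).choose (k / 2) else 0

theorem reverse_coeff (m k : ℕ) : (R m).reverse.coeff k = (cc m k : ℤ) := by
  rw [coeff_reverse, R_natDegree, R_coeff]
  unfold cc
  by_cases h : k ≤ 2 * m
  · rw [revAt_le h, if_pos (by omega), if_pos (by omega)]
    rw [show 2 * m - (2 * m - k) = k from by omega]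
  · rw [revAt_eq_self_of_lt (by omega), if_neg (by omega), if_neg (by omega)]
    simp

theorem kill {q m d : ℕ} [Fact q.Prime] (hd4 : d ≤ 4) {F G : ℤ[X]} (hFm : F.Monic) (hGm : G.Monic)
    (hFG : F * G = R m) (hd : G.natDegree = d) :
    ∃ g1 < q, ∃ g2 < q, ∃ g3 < q, ∃ g4 < q, (d < 3 → g3 = 0) ∧ (d < 4 → g4 = 0) ∧
      (1 ≤ d → (St q g1 g2 g3 g4 (((List.range (2 * m + 1)).reverse).map (cc m))).1 % q = 0) ∧
      (2 ≤ d → (St q g1 g2 g3 g4 (((List.range (2 * m + 1)).reverse).map (cc m))).2.1 % q = 0) ∧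
      (3 ≤ d → (St q g1 g2 g3 g4 (((List.range (2 * m + 1)).reverse).map (cc m))).2.2.1 % q = 0) ∧
      (4 ≤ d → (St q g1 g2 g3 g4 (((List.range (2 * m + 1)).reverse).map (cc m))).2.2.2 % q = 0) := by
  have hq := (Fact.out : q.Prime)
  have : NeZero q := ⟨hq.ne_zero⟩
  set φ := Int.castRingHom (ZMod q) with hφ
  set F' := F.reverse.map φ with hF'
  set G' := G.reverse.map φ with hG'
  have hFG' : F' * G' = (R m).reverse.map φ := by
    rw [hF', hG', ← Polynomial.map_mul, ← reverse_mul_of_domain, hFG]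
  have hdF : F.natDegree + d = 2 * m := by
    rw [← hd, ← hFm.natDegree_mul hGm, hFG, R_natDegree]
  have hF0 : ∀ t, 2 * m - d < t → F'.coeff t = 0 := by
    intro t ht
    apply coeff_eq_zero_of_natDegree_lt
    calc F'.natDegree ≤ F.reverse.natDegree := natDegree_map_le
      _ ≤ F.natDegree := reverse_natDegree_le F
      _ < t := by omega
  have hG0 : ∀ t, d < t → G'.coeff t = 0 := by
    intro t ht
    apply coeff_eq_zero_of_natDegree_lt
    calc G'.natDegree ≤ G.reverse.natDegree := natDegree_map_le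
      _ ≤ G.natDegree := reverse_natDegree_le G
      _ < t := by omega
  have hG1 : G'.coeff 0 = 1 := by
    rw [hG', coeff_map, coeff_zero_reverse, hGm]
    simp
  have hGexp : G' = 1 + C ((G'.coeff 1).val : ZMod q) * X + C ((G'.coeff 2).val : ZMod q) * X ^ 2 +
      C ((G'.coeff 3).val : ZMod q) * X ^ 3 + C ((G'.coeff 4).val : ZMod q) * X ^ 4 := by
    simp only [ZMod.natCast_val, ZMod.cast_id', id_eq]
    have h := as_sum_range' G' 5 (by
      rw [Nat.lt_succ_iff]
      exact (natDegree_map_le.trans (reverse_natDegree_le G)).trans (by omega))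
    rw [Finset.sum_range_succ, Finset.sum_range_succ, Finset.sum_range_succ, Finset.sum_range_succ,
      Finset.sum_range_succ, Finset.sum_range_zero, hG1] at h
    simp only [← C_mul_X_pow_eq_monomial] at h
    conv_lhs => rw [h]
    simp
  have hc : ∀ k, (cc m k : ZMod q) = ((R m).reverse.map φ).coeff k := by
    intro k
    rw [coeff_map, reverse_coeff]
    simp
  obtain ⟨e1, e2, e3, e4⟩ := run_spec (cc m) F' G' _ hFG' hc (ZMod.val_lt _).le (ZMod.val_lt _).le
    (ZMod.val_lt _).le (ZMod.val_lt _).le hGexp (2 * m + 1)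
  refine ⟨_, ZMod.val_lt (G'.coeff 1), _, ZMod.val_lt (G'.coeff 2), _, ZMod.val_lt (G'.coeff 3), _,
    ZMod.val_lt (G'.coeff 4), ?_, ?_, ?_, ?_, ?_, ?_⟩
  · intro h
    rw [hG0 3 (by omega), ZMod.val_zero]
  · intro h
    rw [hG0 4 (by omega), ZMod.val_zero]
  · intro h
    rw [coeff_mul_X_pow', if_pos (by omega), hF0 _ (by omega)] at e1
    exact Nat.mod_eq_zero_of_dvd ((ZMod.natCast_eq_zero_iff _ _).1 e1)
  · intro h
    rw [coeff_mul_X_pow', if_pos (by omega), hF0 _ (by omega)] at e2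
    exact Nat.mod_eq_zero_of_dvd ((ZMod.natCast_eq_zero_iff _ _).1 e2)
  · intro h
    rw [coeff_mul_X_pow', if_pos (by omega), hF0 _ (by omega)] at e3
    exact Nat.mod_eq_zero_of_dvd ((ZMod.natCast_eq_zero_iff _ _).1 e3)
  · intro h
    rw [coeff_mul_X_pow', if_pos (by omega), hF0 _ (by omega)] at e4
    exact Nat.mod_eq_zero_of_dvd ((ZMod.natCast_eq_zero_iff _ _).1 e4)

end Pool.Agent.Helper98K9.Pasc
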