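import Mathlib
import Pool.Agent.Helper98K9.Pasc.Small

set_option autoImplicit false

open Polynomial

namespace Pool.Agent.Helper98K9.Pasc

def adm (m p g : ℕ) : Bool :=
  (List.range 2).any fun e => (List.range 2).any fun c => (List.range 3).any fun s =>
    decide (g = e + c * (2 * (p - m) - 1) + s * (2 * m - p))

theorem adm_of {m p g e c s : ℕ} (he : e ≤ 1) (hc : c ≤ 1) (hs : s ≤ 2)
    (h : g = e + c * (2 * (p - m) - 1) + s * (2 * m - p)) : adm m p g = true := by
  unfold adm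
  rw [List.any_eq_true]
  refine ⟨e, List.mem_range.2 (by omega), ?_⟩
  rw [List.any_eq_true]
  refine ⟨c, List.mem_range.2 (by omega), ?_⟩
  rw [List.any_eq_true]
  refine ⟨s, List.mem_range.2 (by omega), ?_⟩
  exact decide_eq_true h

def combB (m g : ℕ) : Bool :=
  !(decide (g ≤ m) && decide (2 ≤ g) && decide (g % 2 = 0) &&
    ([3, 5, 7, 11, 13, 17, 19, 23].all fun p => !(decide (m < p) && decide (p ≤ 2 * m)) || adm m p g)) ||
  ((m == 2 && g == 2) || (m == 3 && g == 2) || (m == 4 && g == 2) || (m == 5 && g == 4) ||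
    (m == 6 && g == 2) || (m == 8 && g == 6))

theorem combB_all : ((List.range 15).all fun m => (List.range 15).all fun g => combB m g) = true := by
  decide +kernel

theorem combin (m g : ℕ) (hm : m < 15) (hg : g < 15) (h1 : g ≤ m) (h2 : 2 ≤ g) (h3 : g % 2 = 0)
    (h4 : ∀ p ∈ [3, 5, 7, 11, 13, 17, 19, 23], m < p → p ≤ 2 * m → adm m p g = true) :
    (m = 2 ∧ g = 2) ∨ (m = 3 ∧ g = 2) ∨ (m = 4 ∧ g = 2) ∨ (m = 5 ∧ g = 4) ∨ (m = 6 ∧ g = 2) ∨
      (m = 8 ∧ g = 6) := by
  have h := List.all_eq_true.1 combB_all m (List.mem_range.2 hm)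
  have h' := List.all_eq_true.1 h g (List.mem_range.2 hg)
  unfold combB at h'
  have h5 : ([3, 5, 7, 11, 13, 17, 19, 23].all fun p =>
      !(decide (m < p) && decide (p ≤ 2 * m)) || adm m p g) = true := by
    rw [List.all_eq_true]
    intro p hp
    by_cases ha : m < p ∧ p ≤ 2 * m
    · rw [h4 p hp ha.1 ha.2]; simp
    · rw [not_and_or] at ha
      rcases ha with ha | ha <;> simp [ha]
  rw [h5] at h'
  simp only [h1, h2, h3] at h'
  simpa [or_assoc] using h'

theorem l2 : ((List.range 5).reverse).map (cc 2) = [6, 4, 4, 1, 1] := by decide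
theorem l3 : ((List.range 7).reverse).map (cc 3) = [20, 15, 15, 6, 6, 1, 1] := by decide
theorem l4 : ((List.range 9).reverse).map (cc 4) = [70, 56, 56, 28, 28, 8, 8, 1, 1] := by decide
theorem l5 : ((List.range 11).reverse).map (cc 5) =
    [252, 210, 210, 120, 120, 45, 45, 10, 10, 1, 1] := by decide
theorem l6 : ((List.range 13).reverse).map (cc 6) =
    [924, 792, 792, 495, 495, 220, 220, 66, 66, 12, 12, 1, 1] := by decide

theorem c2 : ∀ g1 < 5, ∀ g2 < 5, ¬ ((St 5 g1 g2 0 0 [6, 4, 4, 1, 1]).1 % 5 = 0 ∧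
    (St 5 g1 g2 0 0 [6, 4, 4, 1, 1]).2.1 % 5 = 0) := by decide
theorem c3 : ∀ g1 < 3, ∀ g2 < 3, ¬ ((St 3 g1 g2 0 0 [20, 15, 15, 6, 6, 1, 1]).1 % 3 = 0 ∧
    (St 3 g1 g2 0 0 [20, 15, 15, 6, 6, 1, 1]).2.1 % 3 = 0) := by decide
theorem c4 : ∀ g1 < 3, ∀ g2 < 3, ¬ ((St 3 g1 g2 0 0 [70, 56, 56, 28, 28, 8, 8, 1, 1]).1 % 3 = 0 ∧
    (St 3 g1 g2 0 0 [70, 56, 56, 28, 28, 8, 8, 1, 1]).2.1 % 3 = 0) := by decide
theorem c6 : ∀ g1 < 13, ∀ g2 < 13,
    ¬ ((St 13 g1 g2 0 0 [924, 792, 792, 495, 495, 220, 220, 66, 66, 12, 12, 1, 1]).1 % 13 = 0 ∧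
    (St 13 g1 g2 0 0 [924, 792, 792, 495, 495, 220, 220, 66, 66, 12, 12, 1, 1]).2.1 % 13 = 0) := by
  decide +kernel
def t5 (g1 g2 g3 g4 : ℕ) : Bool :=
  let x := St 5 g1 g2 g3 g4 [252, 210, 210, 120, 120, 45, 45, 10, 10, 1, 1]
  !(x.1 % 5 == 0 && x.2.1 % 5 == 0 && x.2.2.1 % 5 == 0 && x.2.2.2 % 5 == 0)

theorem t5_all : ((List.range 5).all fun g1 => (List.range 5).all fun g2 =>
    (List.range 5).all fun g3 => (List.range 5).all fun g4 => t5 g1 g2 g3 g4) = true := by
  decide +kernel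

theorem c5 (g1 g2 g3 g4 : ℕ) (h1 : g1 < 5) (h2 : g2 < 5) (h3 : g3 < 5) (h4 : g4 < 5) :
    ¬ ((St 5 g1 g2 g3 g4 [252, 210, 210, 120, 120, 45, 45, 10, 10, 1, 1]).1 % 5 = 0 ∧
    (St 5 g1 g2 g3 g4 [252, 210, 210, 120, 120, 45, 45, 10, 10, 1, 1]).2.1 % 5 = 0 ∧
    (St 5 g1 g2 g3 g4 [252, 210, 210, 120, 120, 45, 45, 10, 10, 1, 1]).2.2.1 % 5 = 0 ∧
    (St 5 g1 g2 g3 g4 [252, 210, 210, 120, 120, 45, 45, 10, 10, 1, 1]).2.2.2 % 5 = 0) := by
  rintro ⟨e1, e2, e3, e4⟩
  have h := List.all_eq_true.1 t5_all g1 (List.mem_range.2 h1)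
  have h := List.all_eq_true.1 h g2 (List.mem_range.2 h2)
  have h := List.all_eq_true.1 h g3 (List.mem_range.2 h3)
  have h := List.all_eq_true.1 h g4 (List.mem_range.2 h4)
  unfold t5 at h
  simp only [e1, e2, e3, e4] at h
  exact absurd h (by decide)

/-- the degree 6 case for `m = 8` -/
theorem case86 {F G : ℤ[X]} (hFm : F.Monic) (hGm : G.Monic) (hFG : F * G = R 8)
    (hd : G.natDegree = 6) : False := by
  have hdiv : G.eval 1 ∣ 65536 := by
    have h1 : (R 8).eval 1 = 65536 := by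
      have h := R_eval₂ (RingHom.id ℤ) 1 8
      rw [eval₂_id] at h
      rw [h]
      simp [Finset.sum_range_succ, Nat.choose]
    rw [← h1, ← hFG, eval_mul]
    exact dvd_mul_left _ _
  have hx : ∃ k ≤ 16, G.eval 1 = 2 ^ k ∨ G.eval 1 = -2 ^ k := by
    have h1 : (G.eval 1).natAbs ∣ 2 ^ 16 := by
      have := Int.natAbs_dvd_natAbs.2 hdiv
      norm_num at this ⊢
      exact this
    obtain ⟨k, hk, hk2⟩ := (Nat.dvd_prime_pow Nat.prime_two).1 h1
    refine ⟨k, hk, ?_⟩
    rcases Int.natAbs_eq (G.eval 1) with h | h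
    · left; rw [h, hk2]; norm_num
    · right; rw [h, hk2]; norm_num
  -- the prime 13
  have h13 : (G.eval 1 - 8) % 13 = 0 := by
    have hp : Fact (Nat.Prime 13) := ⟨by norm_num⟩
    let K := AlgebraicClosure (ZMod 13)
    obtain ⟨i, hi⟩ : ∃ i : K, i * i = -1 := by
      obtain ⟨i, hi⟩ := IsAlgClosed.exists_pow_nat_eq (-1 : K) (n := 2) (by norm_num)
      exact ⟨i, by rw [← hi]; ring⟩
    have : CharP K 13 := charP_of_injective_algebraMap (algebraMap (ZMod 13) K).injective 13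
    obtain ⟨e, c, a, b, he, hc, ha, hb, hG⟩ :=
      struct (K := K) (p := 13) (m := 8) (by norm_num) (by norm_num) (by norm_num) hFm hGm hFG hi
    obtain ⟨e', c', s', he', hc', hs', hdeg⟩ :=
      deg_struct (p := 13) (m := 8) (by norm_num) (by norm_num) (by norm_num) hFm hGm hFG
    have hdd := natDeg_formula (K := K) hGm hG
    rw [hd] at hdd
    norm_num at hdd
    have e0 : e = 0 := by omega
    have ec0 : c = 0 := by omega
    have ea : a = 1 := by omega
    have eb : b = 1 := by omega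
    subst e0 ec0 ea eb
    have hev : ((G.eval 1 : ℤ) : K) = 8 := by
      have h1 : (G.map (Int.castRingHom K)).eval 1 = ((G.eval 1 : ℤ) : K) := by
        simp
      rw [← h1, hG]
      simp only [eval_mul, eval_pow, eval_sub, eval_add, eval_X, eval_C]
      norm_num
      linear_combination (-(i * i) ^ 2 + 4 * (i * i) - 7) * hi
    have h2 : ((G.eval 1 - 8 : ℤ) : K) = 0 := by
      push_cast
      rw [hev]; ring
    exact Int.emod_eq_zero_of_dvd ((cast_zero_iff (p := 13) (K := K) _).1 h2)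
  have h11 : (G.eval 1 - 2) % 11 = 0 ∨ ((G.eval 1) ^ 4 + 16384) % 11 = 0 := by
    have hp : Fact (Nat.Prime 11) := ⟨by norm_num⟩
    let K := AlgebraicClosure (ZMod 11)
    obtain ⟨i, hi⟩ : ∃ i : K, i * i = -1 := by
      obtain ⟨i, hi⟩ := IsAlgClosed.exists_pow_nat_eq (-1 : K) (n := 2) (by norm_num)
      exact ⟨i, by rw [← hi]; ring⟩
    have : CharP K 11 := charP_of_injective_algebraMap (algebraMap (ZMod 11) K).injective 11
    obtain ⟨e, c, a, b, he, hc, ha, hb, hG⟩ :=
      struct (K := K) (p := 11) (m := 8) (by norm_num) (by norm_num) (by norm_num) hFm hGm hFG hi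
    have hdd := natDeg_formula (K := K) hGm hG
    rw [hd] at hdd
    norm_num at hdd
    have e0 : e = 1 := by omega
    have h1 : (G.map (Int.castRingHom K)).eval 1 = ((G.eval 1 : ℤ) : K) := by
      simp
    have hcases : (c = 1 ∧ a = 0 ∧ b = 0) ∨ (c = 0 ∧ a = 1 ∧ b = 0) ∨ (c = 0 ∧ a = 0 ∧ b = 1) := by
      omega
    rcases hcases with ⟨rfl, rfl, rfl⟩ | ⟨rfl, rfl, rfl⟩ | ⟨rfl, rfl, rfl⟩
    · left
      subst e0
      have hev : ((G.eval 1 : ℤ) : K) = 2 := by
        rw [← h1, hG]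
        simp only [eval_mul, eval_pow, eval_sub, eval_add, eval_X, eval_C, eval_one]
        norm_num
      have h2 : ((G.eval 1 - 2 : ℤ) : K) = 0 := by
        push_cast
        rw [hev]; ring
      exact Int.emod_eq_zero_of_dvd ((cast_zero_iff (p := 11) (K := K) _).1 h2)
    · right
      subst e0
      have hev : ((G.eval 1 : ℤ) : K) = 2 * (1 - i) ^ 5 := by
        rw [← h1, hG]
        simp only [eval_mul, eval_pow, eval_sub, eval_add, eval_X, eval_C, eval_one]
        norm_num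
      have hsq : (1 - i) ^ 2 = -2 * i := by linear_combination hi
      have h4 : (1 - i) ^ 4 = -4 := by
        have : (1 - i) ^ 4 = ((1 - i) ^ 2) ^ 2 := by ring
        rw [this, hsq]; linear_combination 4 * hi
      have h2 : (((G.eval 1) ^ 4 + 16384 : ℤ) : K) = 0 := by
        push_cast
        rw [hev]
        have : (2 * (1 - i) ^ 5) ^ 4 = 16 * ((1 - i) ^ 4) ^ 5 := by ring
        rw [this, h4]; norm_num
      exact Int.emod_eq_zero_of_dvd ((cast_zero_iff (p := 11) (K := K) _).1 h2)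
    · right
      subst e0
      have hev : ((G.eval 1 : ℤ) : K) = 2 * (1 + i) ^ 5 := by
        rw [← h1, hG]
        simp only [eval_mul, eval_pow, eval_sub, eval_add, eval_X, eval_C, eval_one]
        norm_num
      have hsq : (1 + i) ^ 2 = 2 * i := by linear_combination hi
      have h4 : (1 + i) ^ 4 = -4 := by
        have : (1 + i) ^ 4 = ((1 + i) ^ 2) ^ 2 := by ring
        rw [this, hsq]; linear_combination 4 * hi
      have h2 : (((G.eval 1) ^ 4 + 16384 : ℤ) : K) = 0 := by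
        push_cast
        rw [hev]
        have : (2 * (1 + i) ^ 5) ^ 4 = 16 * ((1 + i) ^ 4) ^ 5 := by ring
        rw [this, h4]; norm_num
      exact Int.emod_eq_zero_of_dvd ((cast_zero_iff (p := 11) (K := K) _).1 h2)
  obtain ⟨k, hk, hk2⟩ := hx
  rcases hk2 with hk2 | hk2 <;> rw [hk2] at h13 h11 <;> interval_cases k <;>
    first | (norm_num at h13; done) | (norm_num at h11; done)

theorem small {m : ℕ} (hm : m < 15) {F G : ℤ[X]} (hFm : F.Monic) (hGm : G.Monic)
    (hFG : F * G = R m) (h0 : 0 < G.natDegree) (h1 : G.natDegree ≤ m) : False := by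
  have hev := even_deg hGm hFG
  have hg2 : 2 ≤ G.natDegree := by
    obtain ⟨t, ht⟩ := hev
    omega
  have hc := combin m G.natDegree hm (by omega) h1 hg2 (Nat.even_iff.1 hev) (by
    intro p hp hp1 hp2
    have hpp : p.Prime ∧ p ≠ 2 := by
      simp only [List.mem_cons, List.not_mem_nil, or_false] at hp
      rcases hp with rfl | rfl | rfl | rfl | rfl | rfl | rfl | rfl <;> norm_num
    have : Fact p.Prime := ⟨hpp.1⟩
    obtain ⟨e, c, s, he, hc, hs, hG⟩ := deg_struct (p := p) hpp.2 hp1 hp2 hFm hGm hFG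
    exact adm_of he hc hs hG)
  rcases hc with ⟨rfl, hg⟩ | ⟨rfl, hg⟩ | ⟨rfl, hg⟩ | ⟨rfl, hg⟩ | ⟨rfl, hg⟩ | ⟨rfl, hg⟩
  · have : Fact (Nat.Prime 5) := ⟨by norm_num⟩
    obtain ⟨g1, hg1, g2, hg2, g3, _, g4, _, e3, e4, k1, k2, _, _⟩ :=
      kill (q := 5) (by norm_num) hFm hGm hFG hg
    rw [e3 (by norm_num), e4 (by norm_num), l2] at k1 k2
    exact c2 g1 hg1 g2 hg2 ⟨k1 (by norm_num), k2 (by norm_num)⟩
  · have : Fact (Nat.Prime 3) := ⟨by norm_num⟩
    obtain ⟨g1, hg1, g2, hg2, g3, _, g4, _, e3, e4, k1, k2, _, _⟩ :=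
      kill (q := 3) (by norm_num) hFm hGm hFG hg
    rw [e3 (by norm_num), e4 (by norm_num), l3] at k1 k2
    exact c3 g1 hg1 g2 hg2 ⟨k1 (by norm_num), k2 (by norm_num)⟩
  · have : Fact (Nat.Prime 3) := ⟨by norm_num⟩
    obtain ⟨g1, hg1, g2, hg2, g3, _, g4, _, e3, e4, k1, k2, _, _⟩ :=
      kill (q := 3) (by norm_num) hFm hGm hFG hg
    rw [e3 (by norm_num), e4 (by norm_num), l4] at k1 k2
    exact c4 g1 hg1 g2 hg2 ⟨k1 (by norm_num), k2 (by norm_num)⟩
  · have : Fact (Nat.Prime 5) := ⟨by norm_num⟩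
    obtain ⟨g1, hg1, g2, hg2, g3, hg3, g4, hg4, _, _, k1, k2, k3, k4⟩ :=
      kill (q := 5) (by norm_num) hFm hGm hFG hg
    rw [l5] at k1 k2 k3 k4
    exact c5 g1 g2 g3 g4 hg1 hg2 hg3 hg4
      ⟨k1 (by norm_num), k2 (by norm_num), k3 (by norm_num), k4 (by norm_num)⟩
  · have : Fact (Nat.Prime 13) := ⟨by norm_num⟩
    obtain ⟨g1, hg1, g2, hg2, g3, _, g4, _, e3, e4, k1, k2, _, _⟩ :=
      kill (q := 13) (by norm_num) hFm hGm hFG hg
    rw [e3 (by norm_num), e4 (by norm_num), l6] at k1 k2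
    exact c6 g1 hg1 g2 hg2 ⟨k1 (by norm_num), k2 (by norm_num)⟩
  · exact case86 hFm hGm hFG hg

theorem R_irreducible {m : ℕ} (hm : 1 ≤ m) : Irreducible (R m) := by
  rw [(R_monic m).irreducible_iff_natDegree']
  constructor
  · intro h
    have := R_natDegree m
    rw [h, natDegree_one] at this
    omega
  · intro F G hF hG hFG hmem
    rw [R_natDegree, Finset.mem_Ioc, Nat.mul_div_cancel_left m (by norm_num)] at hmem
    rcases lt_or_ge m 15 with h | h
    · exact small h hF hG hFG hmem.1 hmem.2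
    · exact large h hF hG hFG hmem.1 hmem.2

theorem rev_irreducible {m : ℕ} (hm : 1 ≤ m) :
    Irreducible ((R m).reverse.map (Int.castRingHom ℚ)) := by
  have h1 : Irreducible ((R m).map (Int.castRingHom ℚ)) :=
    ((R_monic m).irreducible_iff_irreducible_map_fraction_map (K := ℚ)).1 (R_irreducible hm)
  set Q : ℚ[X] := (R m).map (Int.castRingHom ℚ) with hQ
  have hinj : Function.Injective (Int.castRingHom ℚ) := Int.cast_injective
  set S : ℚ[X] := (R m).reverse.map (Int.castRingHom ℚ) with hS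
  have hS0 : S.coeff 0 ≠ 0 := by
    rw [hS, coeff_map, coeff_zero_reverse, R_monic]
    simp
  have hSr : S.reverse = Q := by
    ext k
    have hSd : S.natDegree = 2 * m := by
      rw [hS, natDegree_map_eq_of_injective hinj, reverse_natDegree, R_natDegree]
      have : (R m).natTrailingDegree = 0 := by
        rw [natTrailingDegree_eq_zero]
        right
        rw [R_coeff, if_pos (by omega)]
        have : 0 < (2 * m).choose ((2 * m - 0) / 2) := Nat.choose_pos (by omega)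
        exact_mod_cast this.ne'
      rw [this]; rfl
    rw [coeff_reverse, hSd, hS, hQ, coeff_map, coeff_map, coeff_reverse, R_natDegree, revAt_invol]
  constructor
  · intro hu
    have h2 := natDegree_eq_zero_of_isUnit hu
    have h3 : Q.natDegree = 0 := by
      have := reverse_natDegree_le S
      rw [hSr, h2] at this
      omega
    have h4 : Q.natDegree = 2 * m := by
      rw [hQ, (R_monic m).natDegree_map, R_natDegree]
    omega
  · intro A B hAB
    have hA0 : A.coeff 0 ≠ 0 := by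
      intro h
      apply hS0
      rw [hAB, mul_coeff_zero, h, zero_mul]
    have hB0 : B.coeff 0 ≠ 0 := by
      intro h
      apply hS0
      rw [hAB, mul_coeff_zero, h, mul_zero]
    have key : ∀ A : ℚ[X], A.coeff 0 ≠ 0 → IsUnit A.reverse → IsUnit A := by
      intro A hA hu
      have h2 := natDegree_eq_zero_of_isUnit hu
      rw [reverse_natDegree, natTrailingDegree_eq_zero.2 (Or.inr hA)] at h2
      rw [isUnit_iff_degree_eq_zero]
      rw [degree_eq_natDegree (by rintro rfl; simp at hA)]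
      simp only [Nat.sub_zero] at h2
      rw [h2]; rfl
    have h5 : Q = A.reverse * B.reverse := by
      rw [← hSr, hAB, reverse_mul_of_domain]
    rcases h1.isUnit_or_isUnit h5 with h | h
    · exact Or.inl (key A hA0 h)
    · exact Or.inr (key B hB0 h)

end Pool.Agent.Helper98K9.Pasc
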